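import Pool.Agent.R189.WS.Fin2

set_option autoImplicit false

/-!
# Deformations of primitive symplectic torus quotients with Lagrangian fibrations

Let `X = V / Γ` be a primitive symplectic variety that is the quotient of a complex torus by a finite
group. The deformations of `X` considered here are the quotients `X_φ = V / φ Γ φ⁻¹` for the real linear
automorphisms `φ` of `V` which commute with the linear parts of `Γ`; they are the quotients of the real
vector space `V` by `Γ` for the complex structures `φ⁻¹ ∘ i ∘ φ`. Two such automorphisms which are close
to each other are joined by the segment between them. The theorem says that `X` has a deformation with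
a fibration if and only if `H²(X, ℚ)` contains an isotropic class, and that then the deformations which
are projective and have two Lagrangian fibrations are dense; in particular there are arbitrarily small
deformations of `X` of this kind.

`IsPrimitiveSymplectic` and `LineBundle` are defined in `Pool.Agent.W594.SYZ.Defs2`; `IsChernForm`,
`IsPositiveForm` and `IsLagrangianFibration` in `Pool.Agent.W594.SYZ.TQDefs`; `IsFibration` in
`Pool.Agent.TH735.AQ.Defs`; `fibrations` and `IsProj` in `Pool.Agent.R189.SY.LagDefs`; `Commutes`,
`deform`, `IsClass`, `Isotropic` and `Reducible` in `Pool.Agent.R189.WS.Conj`.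

The proof: let `E` be a real isotropic class. If `E` is of type `(1,1)`, its kernel is a complex
subspace. If not, `E = Im (H - s)` with a class `H` of type `(1,1)` and a multiple `s ≠ 0` of the
symplectic form, and the kernel of `E` is the fixed space of the conjugate linear involution `A` with
`H(x, y) = s(x, A y)`. A class of type `(1,1)` which is orthogonal to `H` and has positive square gives
in the same way a conjugate linear operator `N` with `N² = -1` and `N A = - A N`, and `φ = 1 + N` maps
the kernel of `E` onto a complex subspace (`(1 + t N)`, `0 ≤ t ≤ 1`, is a twistor path). If `E` is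
rational, this subspace is spanned by lattice vectors and gives a fibration. By Maschke's theorem over
`ℚ` and over `ℂ` one can change `φ` such that there is a second, complementary fibration; then `X_φ` is
projective. Composing with the rational operators which commute with the group, which are dense in the
real ones, gives the density. Conversely a fibration of `X_φ` gives an invariant rational subspace, and
if the restrictions of all rational classes to this subspace and to an invariant rational complement
vanished, then the subspace would be complex and isotropic for a Kähler class.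
-/

namespace Pool.Agent.Results.MP_e4ecdb_ag.DenseLagrangianFibrations

open Pool.Agent.W594.SYZ2 Pool.Agent.TH735.AQ Pool.Agent.R189.SY Pool.Agent.R189.WS2
open Pool.Agent.R189

/-- Let `X = V / Γ`, `V ≠ 0`, be a primitive symplectic torus quotient.

1. All `X_φ = V / φ Γ φ⁻¹`, `φ` a real linear automorphism of `V` which commutes with the linear parts
   of `Γ`, are primitive symplectic torus quotients, and each fibration of `X_φ` onto a torus quotient
   `B` with `0 < dim B < dim X_φ` is Lagrangian with a projective base.
2. The following are equivalent: there is `0 ≠ E ∈ H²(X, ℚ)` with `q_X(E) = 0`; the representation of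
   the linear parts of `Γ` on `Λ ⊗ ℚ` is reducible; some `X_φ` has such a fibration; the `φ` for which
   `X_φ` is projective and has at least two Lagrangian fibrations are dense. -/
theorem result {V : Type*} [NormedAddCommGroup V] [NormedSpace ℂ V] [FiniteDimensional ℂ V]
    [Nontrivial V] (Γ : Subgroup (V ≃ᵃ[ℂ] V)) (hΓ : IsPrimitiveSymplectic Γ) :
    (∀ φ : V ≃L[ℝ] V, Commutes Γ φ → IsPrimitiveSymplectic (deform Γ φ) ∧
      ∀ (n : ℕ) (Δ : Subgroup ((Fin n → ℂ) ≃ᵃ[ℂ] (Fin n → ℂ))) (π : V →ₗ[ℂ] (Fin n → ℂ)),
        IsFibration (deform Γ φ) Δ π → 0 < n → n < Module.finrank ℂ V →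
          IsLagrangianFibration (deform Γ φ) Δ π ∧
            ∃ (A : LineBundle Δ) (HA : (Fin n → ℂ) → (Fin n → ℂ) → ℂ), IsChernForm A HA ∧
              IsPositiveForm HA ∧ ∀ v, ∃ s, A.IsSection s ∧ s v ≠ 0) ∧
    List.TFAE [
      ∃ E : V → V → ℝ, IsClass Γ E ∧ Isotropic E,
      Reducible Γ,
      ∃ φ : V ≃L[ℝ] V, Commutes Γ φ ∧ (fibrations (deform Γ φ)).Nonempty,
      ∀ φ : V ≃L[ℝ] V, Commutes Γ φ → ∀ ε : ℝ, 0 < ε → ∃ φ' : V ≃L[ℝ] V, Commutes Γ φ' ∧
        ‖(φ' : V →L[ℝ] V) - φ‖ < ε ∧ IsProj (deform Γ φ') ∧
        (fibrations (deform Γ φ')).Nontrivial] := by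
  refine ⟨fun φ hφ => ?_, main hΓ⟩
  rw [deform_eq]
  exact ⟨WS.prim_deform hΓ hφ, fun n Δ π hf h0 h1 =>
    (lagr_of_fib (WS.prim_deform hΓ hφ) hf h0 h1).2⟩

end Pool.Agent.Results.MP_e4ecdb_ag.DenseLagrangianFibrations
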