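import Pool.Agent.R189.SY.Iso

set_option autoImplicit false

/-!
# The Beauville–Bogomolov–Fujiki form of primitive symplectic torus quotients, and the rational SYZ
conjecture for all isotropic line bundles

Let `X = V / Γ` be a primitive symplectic variety that is the quotient of a complex torus by a finite
group. The theorem determines the Beauville–Bogomolov–Fujiki form `q` of `X` up to a positive factor
(Fujiki relation), proves the Hodge index theorem for it, and shows that a class of type `(1,1)` with
`q ≥ 0` is nef up to sign. So the movable cone, the nef cone, the pseudo-effective cone and the closure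
of the positive cone are the same, and for every line bundle `L` with `q_X(L) = 0` which is not
torsion exactly one of `L` and its dual is movable, and it induces a holomorphic Lagrangian fibration:
the hypothesis of the rational SYZ conjecture that `L` is movable is not needed, up to replacing `L`
by its dual, and a power of `L` which only depends on the dimension of `X` suffices.

Everything is written on the universal cover `V`. `IsPrimitiveSymplectic` and `LineBundle` are defined
in `Pool.Agent.W594.SYZ.Defs2`; `IsChernForm`, `IsNefForm`, `IsPositiveForm` and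
`IsLagrangianFibration` in `Pool.Agent.W594.SYZ.TQDefs`; `IsPseudoEffective` in
`Pool.Agent.TH128.SYZ.PsefDefs`; `IsClass`, `IsBBForm`, `Generated`, `PullsBack` and `exponent` in
`Pool.Agent.R189.SY.IsoDefs`.

The proof: a class `H` and the symplectic form `σ` define a conjugate linear operator `J` with
`H(w, v) = σ(w, J v)`. Its square is `σ`-symmetric and commutes with the linear parts of `Γ`, and
because all invariant alternating forms are multiples of `σ` it is a real scalar `- q(H)`. Hence `q` is
a quadratic form, `H` is degenerate if and only if `q(H) = 0`, and the determinant of `H` is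
`q(H)^n` up to a constant. If `K` is a Kähler class and `H` takes positive and negative values then the
polynomial `q(t K - H)` has a positive and a negative zero, the extremal `t`, so that `q(H) < 0`.
-/

namespace Pool.Agent.Results.MP_e4ecdb_ag.IsotropicClasses

open Pool.Agent.W594.SYZ2 Pool.Agent.TH128.SYZ Pool.Agent.R189.SY

/-- Let `X = V / Γ`, `V ≠ 0`, be a primitive symplectic torus quotient. There is a
Beauville–Bogomolov–Fujiki form `q` on `H^{1,1}(X, ℝ)`, it is unique up to a positive factor, and it
has the following properties.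

1. (Hodge index theorem) It is negative definite on the orthogonal complement of every Kähler class.
2. A class `H` satisfies `q(H) ≥ 0` if and only if `H` or `-H` is nef, and `q(H) > 0` if and only if
   `H` or `-H` is a Kähler class.
3. Let `L` be a line bundle with Chern form `H`, let `L'` be its dual and `M = exponent (dim X)`.
   * If `q(H) > 0`, then one of the line bundles `L ^ M` and `L' ^ M` is generated by global sections,
     and `L` respectively `L'` is ample.
   * If `q(H) = 0` and `H ≠ 0`, then exactly one of `L` and `L'` is pseudo-effective, and it induces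
     a holomorphic Lagrangian fibration `X → B`: its `M`-th power is the pullback of an ample line
     bundle generated by global sections.
   * If `q(H) < 0`, neither `L` nor `L'` is pseudo-effective. -/
theorem result {V : Type*} [NormedAddCommGroup V] [NormedSpace ℂ V] [FiniteDimensional ℂ V]
    [Nontrivial V] (Γ : Subgroup (V ≃ᵃ[ℂ] V)) (hΓ : IsPrimitiveSymplectic Γ) :
    ∃ q : (V → V → ℂ) → ℝ, IsBBForm Γ q ∧
      (∀ q', IsBBForm Γ q' → ∃ c : ℝ, 0 < c ∧ ∀ H, IsClass Γ H → q' H = c * q H) ∧
      (∀ K H, IsClass Γ K → IsPositiveForm K → IsClass Γ H →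
        q (fun v w => K v w + H v w) = q K + q H → (∃ v w, H v w ≠ 0) → q H < 0) ∧
      (∀ H, IsClass Γ H → (0 ≤ q H ↔ IsNefForm H ∨ IsNefForm fun v w => - H v w) ∧
        (0 < q H ↔ IsPositiveForm H ∨ IsPositiveForm fun v w => - H v w)) ∧
      ∀ (L : LineBundle Γ) (H : V → V → ℂ), IsChernForm L H → IsClass Γ H ∧
        ∃ L' : LineBundle Γ, (∀ γ v, L.e γ v * L'.e γ v = 1) ∧
          (0 < q H → (IsPositiveForm H ∧ Generated (exponent (Module.finrank ℂ V)) L) ∨
            (IsPositiveForm (fun v w => - H v w) ∧
              Generated (exponent (Module.finrank ℂ V)) L')) ∧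
          (q H = 0 → (∃ v w, H v w ≠ 0) →
            ∃ (n : ℕ) (Δ : Subgroup ((Fin n → ℂ) ≃ᵃ[ℂ] (Fin n → ℂ))) (π : V →ₗ[ℂ] (Fin n → ℂ)),
              (∀ v, π v = 0 ↔ ∀ w, H v w = 0) ∧ IsLagrangianFibration Γ Δ π ∧
              ((IsPseudoEffective L ∧ ¬ IsPseudoEffective L' ∧
                  PullsBack (exponent (Module.finrank ℂ V)) L Δ π) ∨
                (IsPseudoEffective L' ∧ ¬ IsPseudoEffective L ∧
                  PullsBack (exponent (Module.finrank ℂ V)) L' Δ π))) ∧
          (q H < 0 → ¬ IsPseudoEffective L ∧ ¬ IsPseudoEffective L') := by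
  obtain ⟨q, hq, hdeg, hpm, hindex⟩ := exists_form hΓ
  have hneg : ∀ H, IsClass Γ H → q (fun v w => - H v w) = q H := fun H h => hq.neg h
  have hnonneg : ∀ H, IsClass Γ H → IsNefForm H → 0 ≤ q H := by
    intro H h hn
    by_cases hd : IsDegenerateForm H
    · rw [(hdeg H h).1 hd]
    · exact (hq.pos H h (pos_of_nef (H := ⟨H, h⟩) hn hd)).le
  have hposnef : ∀ H, IsClass Γ H → 0 < q H → IsNefForm H → IsPositiveForm H := by
    intro H h hp hn
    apply pos_of_nef (H := ⟨H, h⟩) hn
    intro hd
    rw [(hdeg H h).1 hd] at hp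
    exact lt_irrefl _ hp
  have h2 : ∀ H, IsClass Γ H → (0 ≤ q H ↔ IsNefForm H ∨ IsNefForm fun v w => - H v w) ∧
        (0 < q H ↔ IsPositiveForm H ∨ IsPositiveForm fun v w => - H v w) := by
    intro H h
    refine ⟨⟨fun h0 => hpm H h h0, ?_⟩, ⟨fun h0 => ?_, ?_⟩⟩
    · rintro (hn | hn)
      · exact hnonneg H h hn
      · rw [← hneg H h]
        exact hnonneg _ h.neg hn
    · rcases hpm H h h0.le with hn | hn
      · exact Or.inl (hposnef H h h0 hn)
      · exact Or.inr (hposnef _ h.neg (by rwa [hneg H h]) hn)
    · rintro (hn | hn)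
      · exact hq.pos H h hn
      · rw [← hneg H h]
        exact hq.pos _ h.neg hn
  refine ⟨q, hq, fun q' hq' => form_unique hΓ hq hq', fun K H k hp h => hindex K H k h hp, h2, ?_⟩
  intro L H hc
  have h := class_of_chern hc
  have hc' := Pool.Agent.R893.TQ.chern_dual hc
  refine ⟨h, Pool.Agent.R893.TQ.dual L, fun γ v => mul_inv_cancel₀ (L.ne_zero γ v), ?_, ?_, ?_⟩
  · intro h0
    rcases (h2 H h).2.1 h0 with hp | hp
    · exact Or.inl ⟨hp, generated_of
        (uniform hΓ.torus hΓ.h01 hc (nef_of_pos hc.1 hp) le_rfl)⟩
    · exact Or.inr ⟨hp, generated_of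
        (uniform hΓ.torus hΓ.h01 hc' (nef_of_pos hc'.1 hp) le_rfl)⟩
  · intro h0 hne
    have hd : IsDegenerateForm H := (hdeg H h).2 h0
    have hnot : ¬ (IsNefForm H ∧ IsNefForm fun v w => - H v w) := by
      rintro ⟨hn, hn'⟩
      obtain ⟨v, w, hvw⟩ := hne
      apply hvw
      refine Pool.Agent.W594.SYZ2.TQ.h_isotropic hc.1 hn v ?_ w
      have := hn' v
      rw [Complex.neg_re] at this
      linarith [hn v]
    rcases (h2 H h).1.1 h0.ge with hn | hn
    · obtain ⟨n, Δ, π, e1, e2, e3⟩ := lag_of_nef hΓ hc hn hd hne
      refine ⟨n, Δ, π, e1, e2, Or.inl ⟨(psef_iff_nef hΓ.torus hc).2 hn, fun hp => hnot ⟨hn, ?_⟩, e3⟩⟩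
      exact (psef_iff_nef hΓ.torus hc').1 hp
    · have hd' : IsDegenerateForm (fun v w => - H v w) := by
        obtain ⟨v, hv, hvw⟩ := hd
        exact ⟨v, hv, fun w => neg_eq_zero.2 (hvw w)⟩
      obtain ⟨n, Δ, π, e1, e2, e3⟩ := lag_of_nef hΓ hc' hn hd' (by
        obtain ⟨v, w, hvw⟩ := hne
        exact ⟨v, w, neg_ne_zero.2 hvw⟩)
      refine ⟨n, Δ, π, fun v => (e1 v).trans (by simp only [neg_eq_zero]), e2,
        Or.inr ⟨(psef_iff_nef hΓ.torus hc').2 hn, fun hp => hnot ⟨?_, hn⟩, e3⟩⟩
      exact (psef_iff_nef hΓ.torus hc).1 hp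
  · intro h0
    refine ⟨fun hp => ?_, fun hp => ?_⟩
    · have := hnonneg H h ((psef_iff_nef hΓ.torus hc).1 hp)
      linarith
    · have := hnonneg _ h.neg ((psef_iff_nef hΓ.torus hc').1 hp)
      rw [hneg H h] at this
      linarith

end Pool.Agent.Results.MP_e4ecdb_ag.IsotropicClasses
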