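import Pool.Agent.R189.WS.Dim

set_option autoImplicit false

/-!
# Torus quotients with `h^{1,1}` not dividing half of the dimension

Let `X = V / Γ` be a primitive symplectic variety that is the quotient of a complex torus by a finite
group, and let `dim X = 2 n`. The deformations of `X` considered here are the quotients
`X_φ = V / φ Γ φ⁻¹` for the real linear automorphisms `φ` of `V` which commute with the linear parts of
`Γ`. The theorem says that if `h^{1,1}(X)` does not divide `n`, then `H²(X, ℚ)` contains an isotropic
class, and the deformations which are projective and have at least two fibrations are dense.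

`IsPrimitiveSymplectic` and `LineBundle` are defined in `Pool.Agent.W594.SYZ.Defs2`; `IsChernForm` and
`IsPositiveForm` in `Pool.Agent.W594.SYZ.TQDefs`; `IsFibration` in `Pool.Agent.TH735.AQ.Defs`; `H11` in
`Pool.Agent.R189.SY.BBFDefs`; `fibrations` and `IsProj` in `Pool.Agent.R189.SY.LagDefs`; `Commutes`,
`deform`, `IsClass` and `Isotropic` in `Pool.Agent.R189.WS.Conj`.

The proof: the real operators on `V` which commute with the linear parts form an algebra `D_ℝ` with
`dim_ℝ D_ℝ = 4 h^{1,1}(X)`: by means of the symplectic form and a Kähler class the conjugate linear and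
the linear ones are both given by pairs of hermitian forms. The rational operators are a rational
structure of it. If the representation of the linear parts on `Λ ⊗ ℚ` is irreducible, then the nonzero
rational operators are invertible and `Λ ⊗ ℚ` is a vector space over the skew field of them, hence
`4 h^{1,1}(X)` divides `dim_ℝ V = 4 n`. So the representation is reducible, and the theorem
`DenseLagrangianFibrations` applies.
-/

namespace Pool.Agent.Results.MP_e4ecdb_ag.UnconditionalDensity

open Pool.Agent.W594.SYZ2 Pool.Agent.TH735.AQ Pool.Agent.R189.SY Pool.Agent.R189.WS2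

/-- Let `X = V / Γ`, `dim X = 2 n > 0`, be a primitive symplectic torus quotient such that
`h^{1,1}(X)` does not divide `n`. Then there is `0 ≠ E ∈ H²(X, ℚ)` with `q_X(E) = 0`, and for each
`φ` which commutes with the linear parts of `Γ` there are `φ'` arbitrarily close to `φ` such that
`X_φ'` is projective and has at least two fibrations. -/
theorem result {V : Type*} [NormedAddCommGroup V] [NormedSpace ℂ V] [FiniteDimensional ℂ V]
    [Nontrivial V] (Γ : Subgroup (V ≃ᵃ[ℂ] V)) (hΓ : IsPrimitiveSymplectic Γ) (n : ℕ)
    (hn : Module.finrank ℂ V = 2 * n) (h : ¬ Module.finrank ℝ (H11 Γ) ∣ n) :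
    (∃ E : V → V → ℝ, IsClass Γ E ∧ Isotropic E) ∧
    ∀ φ : V ≃L[ℝ] V, Commutes Γ φ → ∀ ε : ℝ, 0 < ε → ∃ φ' : V ≃L[ℝ] V, Commutes Γ φ' ∧
      ‖(φ' : V →L[ℝ] V) - φ‖ < ε ∧ IsProj (deform Γ φ') ∧
      (fibrations (deform Γ φ')).Nontrivial := by
  have h1 := main hΓ
  have h2 : Reducible Γ := Pool.Agent.R189.WS.reducible_of_not_dvd hΓ hn h
  exact ⟨(h1.out 0 1).2 h2, (h1.out 1 3).1 h2⟩

end Pool.Agent.Results.MP_e4ecdb_ag.UnconditionalDensity
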